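import Pool.Agent.Helper43.GD.St

/-! Project GD, module SC: `E(εL)` commutes with `F((1-ε)L)`. -/

set_option autoImplicit false

namespace Pool.Agent.Helper73.GD

open Pool.Agent.Helper43.GD

theorem hSC (hA : StSA) (hB : StSB) (hG : StGNS) : StSC := by
  intro L A _ _ Q M x hR hx ι ε hι hι2 hε
  have h2 : ∀ a b : L, 2 * a = 2 * b → a = b := fun a b h => hR.two.mul_left_cancel h
  have he : ε * ε = ε := by
    apply h2; apply h2
    linear_combination (2 * ε + 1 + (ι : L) - 2) * hε + hι2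
  have key : Commute (Q.E (2 * ε)) (Q.F (-(2 * (1 - ε)))) := by
    refine hA L A Q (2 * ε) (-(2 * (1 - ε))) 1 ι ι Q.U.one_mem hι hι ?_ ?_ ?_
    · linear_combination 4 * he
    · rw [Units.val_one]; linear_combination -hε
    · rw [Units.val_one]; linear_combination -hε
  have cj : ∀ τ ∈ Q.U, Commute (Q.E ((τ : L) * (2 * ε)))
      (Q.F (((τ⁻¹ : Lˣ) : L) * (-(2 * (1 - ε))))) := by
    intro τ hτ
    rw [← Q.h_E hτ, ← Q.h_F hτ]
    have := key.eq
    unfold Commute SemiconjBy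
    calc Q.h τ * Q.E (2 * ε) * (Q.h τ)⁻¹ * (Q.h τ * Q.F (-(2 * (1 - ε))) * (Q.h τ)⁻¹)
        = Q.h τ * (Q.E (2 * ε) * Q.F (-(2 * (1 - ε)))) * (Q.h τ)⁻¹ := by group
      _ = Q.h τ * (Q.F (-(2 * (1 - ε))) * Q.E (2 * ε)) * (Q.h τ)⁻¹ := by rw [this]
      _ = _ := by group
  obtain ⟨σ₁, h₁, e₁⟩ := hB L A Q M x hR hx ι ε hι hι2 hε
  have hnι : -ι ∈ Q.U := by
    have := Q.U.mul_mem Q.neg hι
    rwa [neg_one_mul] at this
  obtain ⟨σ₂, h₂, e₂⟩ := hB L A Q M x hR hx (-ι) (1 - ε) hnι (by rw [Units.val_neg, neg_sq, hι2])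
    (by rw [Units.val_neg]; linear_combination -hε)
  have p1 : ∀ i : ℕ, ε * (σ₁ : L) ^ i = ε * ((x : L) ^ 3) ^ i := by
    intro i
    induction i with
    | zero => simp
    | succ i ih =>
      rw [pow_succ, pow_succ, ← mul_assoc, ih, e₁]
      linear_combination (((x : L) ^ 3) ^ i * ((x : L) ^ 3 - 1)) * he
  have p2 : ∀ i : ℕ, (1 - ε) * (σ₁ : L) ^ i = 1 - ε := by
    intro i
    induction i with
    | zero => simp
    | succ i ih =>
      rw [pow_succ, ← mul_assoc, ih, e₁]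
      linear_combination (-(x : L) ^ 3 + 1) * he
  have p3 : ∀ i : ℕ, (1 - ε) * (σ₂ : L) ^ i = (1 - ε) * ((x : L) ^ 3) ^ i := by
    intro i
    induction i with
    | zero => simp
    | succ i ih =>
      rw [pow_succ, pow_succ, ← mul_assoc, ih, e₂]
      linear_combination (((x : L) ^ 3) ^ i * ((x : L) ^ 3 - 1)) * he
  have p4 : ∀ i : ℕ, ε * (σ₂ : L) ^ i = ε := by
    intro i
    induction i with
    | zero => simp
    | succ i ih =>
      rw [pow_succ, ← mul_assoc, ih, e₂]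
      linear_combination (-(x : L) ^ 3 + 1) * he
  have main : ∀ i j : ℕ, Commute (Q.E (2 * ε * ((x : L) ^ 3) ^ i))
      (Q.F (-(2 * (1 - ε) * ((x : L) ^ 3) ^ j))) := by
    intro i j
    have hτ : σ₁ ^ i * (σ₂ ^ j)⁻¹ ∈ Q.U := Q.U.mul_mem (Q.U.pow_mem h₁ i) (Q.U.inv_mem (Q.U.pow_mem h₂ j))
    have := cj _ hτ
    have q1 : ε * (((σ₂ ^ j)⁻¹ : Lˣ) : L) = ε := by
      calc ε * (((σ₂ ^ j)⁻¹ : Lˣ) : L) = ε * (σ₂ : L) ^ j * (((σ₂ ^ j)⁻¹ : Lˣ) : L) := by rw [p4 j]
        _ = ε * (((σ₂ ^ j : Lˣ) : L) * (((σ₂ ^ j)⁻¹ : Lˣ) : L)) := by push_cast; ring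
        _ = ε := by rw [Units.mul_inv, mul_one]
    have q2 : (1 - ε) * (((σ₁ ^ i)⁻¹ : Lˣ) : L) = 1 - ε := by
      calc (1 - ε) * (((σ₁ ^ i)⁻¹ : Lˣ) : L) = (1 - ε) * (σ₁ : L) ^ i * (((σ₁ ^ i)⁻¹ : Lˣ) : L) := by
            rw [p2 i]
        _ = (1 - ε) * (((σ₁ ^ i : Lˣ) : L) * (((σ₁ ^ i)⁻¹ : Lˣ) : L)) := by push_cast; ring
        _ = 1 - ε := by rw [Units.mul_inv, mul_one]
    have r1 : ((σ₁ ^ i * (σ₂ ^ j)⁻¹ : Lˣ) : L) * (2 * ε) = 2 * ε * ((x : L) ^ 3) ^ i := by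
      rw [Units.val_mul, Units.val_pow_eq_pow_val]
      calc (σ₁ : L) ^ i * (((σ₂ ^ j)⁻¹ : Lˣ) : L) * (2 * ε)
          = 2 * (σ₁ : L) ^ i * (ε * (((σ₂ ^ j)⁻¹ : Lˣ) : L)) := by ring
        _ = 2 * (ε * (σ₁ : L) ^ i) := by rw [q1]; ring
        _ = _ := by rw [p1]; ring
    have r2 : (((σ₁ ^ i * (σ₂ ^ j)⁻¹)⁻¹ : Lˣ) : L) * (-(2 * (1 - ε))) =
        -(2 * (1 - ε) * ((x : L) ^ 3) ^ j) := by
      rw [mul_inv, inv_inv, Units.val_mul, Units.val_pow_eq_pow_val]
      calc (((σ₁ ^ i)⁻¹ : Lˣ) : L) * (σ₂ : L) ^ j * (-(2 * (1 - ε)))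
          = -(2 * (σ₂ : L) ^ j * ((1 - ε) * (((σ₁ ^ i)⁻¹ : Lˣ) : L))) := by ring
        _ = -(2 * ((1 - ε) * (σ₂ : L) ^ j)) := by rw [q2]; ring
        _ = _ := by rw [p3]; ring
    rw [r1, r2] at this
    exact this
  have hGn : Gn ((x : L) ^ 3) := by
    have := (hG L M x hR).2.2.1
    rwa [Units.val_pow_eq_pow_val] at this
  have step1 : ∀ (j : ℕ) (a : L), Commute (Q.E (2 * ε * a))
      (Q.F (-(2 * (1 - ε) * ((x : L) ^ 3) ^ j))) := by
    intro j
    let N : AddSubgroup L :=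
      { carrier := {a | ∀ i : ℕ, Commute (Q.E (2 * ε * (((x : L) ^ 3) ^ i * a)))
          (Q.F (-(2 * (1 - ε) * ((x : L) ^ 3) ^ j)))}
        add_mem' := by
          intro a b ha hb i
          have e : 2 * ε * (((x : L) ^ 3) ^ i * (a + b)) =
            2 * ε * (((x : L) ^ 3) ^ i * a) + 2 * ε * (((x : L) ^ 3) ^ i * b) := by ring
          rw [e, Q.Eadd]
          exact (ha i).mul_left (hb i)
        zero_mem' := by
          intro i
          rw [mul_zero, mul_zero, Q.E_zero]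
          exact Commute.one_left _
        neg_mem' := by
          intro a ha i
          have e : 2 * ε * (((x : L) ^ 3) ^ i * (-a)) = -(2 * ε * (((x : L) ^ 3) ^ i * a)) := by ring
          rw [e, Q.E_neg]
          exact (ha i).inv_left }
    have hN := hGn N (fun i => by rw [mul_one]; exact main i j) (by
      intro y hy i
      have := hy (i + 1)
      have e : ((x : L) ^ 3) ^ (i + 1) * y = ((x : L) ^ 3) ^ i * ((x : L) ^ 3 * y) := by
        rw [pow_succ, mul_assoc]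
      rw [e] at this
      exact this)
    intro a
    have := hN a 0
    rw [pow_zero, one_mul] at this
    exact this
  have step2 : ∀ (a b : L), Commute (Q.E (2 * ε * a)) (Q.F (-(2 * (1 - ε) * b))) := by
    intro a
    let N : AddSubgroup L :=
      { carrier := {b | ∀ i : ℕ, Commute (Q.E (2 * ε * a))
          (Q.F (-(2 * (1 - ε) * (((x : L) ^ 3) ^ i * b))))}
        add_mem' := by
          intro u v hu hv i
          have e : -(2 * (1 - ε) * (((x : L) ^ 3) ^ i * (u + v))) =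
            -(2 * (1 - ε) * (((x : L) ^ 3) ^ i * u)) + -(2 * (1 - ε) * (((x : L) ^ 3) ^ i * v)) := by
            ring
          rw [e, Q.Fadd]
          exact (hu i).mul_right (hv i)
        zero_mem' := by
          intro i
          rw [mul_zero, mul_zero, neg_zero, Q.F_zero]
          exact Commute.one_right _
        neg_mem' := by
          intro u hu i
          have e : -(2 * (1 - ε) * (((x : L) ^ 3) ^ i * (-u))) =
            -(-(2 * (1 - ε) * (((x : L) ^ 3) ^ i * u))) := by ring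
          rw [e, Q.F_neg (-(2 * (1 - ε) * (((x : L) ^ 3) ^ i * u)))]
          exact (hu i).inv_right }
    have hN := hGn N (fun i => by rw [mul_one]; exact step1 i a) (by
      intro y hy i
      have := hy (i + 1)
      have e : ((x : L) ^ 3) ^ (i + 1) * y = ((x : L) ^ 3) ^ i * ((x : L) ^ 3 * y) := by
        rw [pow_succ, mul_assoc]
      rw [e] at this
      exact this)
    intro b
    have := hN b 0
    rw [pow_zero, one_mul] at this
    exact this
  intro a b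
  obtain ⟨c, hc⟩ := hR.two
  have := (step2 (((c⁻¹ : Lˣ) : L) * a) (-(((c⁻¹ : Lˣ) : L) * b))).eq
  have c1 : (2 : L) * ((c⁻¹ : Lˣ) : L) = 1 := by rw [← hc]; exact Units.mul_inv c
  have s1 : 2 * ε * (((c⁻¹ : Lˣ) : L) * a) = ε * a := by linear_combination (ε * a) * c1
  have s2 : -(2 * (1 - ε) * (-(((c⁻¹ : Lˣ) : L) * b))) = (1 - ε) * b := by
    linear_combination ((1 - ε) * b) * c1
  rw [s1, s2] at this
  exact this

end Pool.Agent.Helper73.GD
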